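import Mathlib

set_option autoImplicit false

namespace Pool.Agent.Results.MP_560fdc_co.QuadraticStep

open Filter

/-- A presentation over the alphabet `A` with vertex set `V`: a labelled directed graph.
`G.edge p a q` says that there is an edge from `p` to `q` labelled `a`. -/
structure Presentation (A V : Type) where
  edge : V → A → V → Prop

variable {A V : Type}

/-- The shift space presented by `G`: label sequences of bi-infinite walks in `G`. -/
def Presentation.shift (G : Presentation A V) : Set (ℤ → A) :=
  {x | ∃ v : ℤ → V, ∀ i : ℤ, G.edge (v i) (x i) (v (i + 1))}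

/-- `G.IsPath p w q`: there is a path from `p` to `q` in `G` whose label is the word `w`. -/
def Presentation.IsPath (G : Presentation A V) : V → List A → V → Prop
  | p, [], q => p = q
  | p, a :: w, q => ∃ r : V, G.edge p a r ∧ G.IsPath r w q

/-- No vertex has two outgoing edges with the same label. -/
def Presentation.Deterministic (G : Presentation A V) : Prop :=
  ∀ p a q q', G.edge p a q → G.edge p a q' → q = q'

/-- The word `w` synchronizes to `q`: some path is labelled `w`, and every path labelled `w`
ends at `q`. -/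
def Presentation.SynchronizesTo (G : Presentation A V) (w : List A) (q : V) : Prop :=
  (∃ p q', G.IsPath p w q') ∧ ∀ p q', G.IsPath p w q' → q' = q

/-- A synchronizing deterministic presentation: deterministic, and every vertex has a word
synchronizing to it. -/
def Presentation.SyncDet (G : Presentation A V) : Prop :=
  G.Deterministic ∧ ∀ q, ∃ w, G.SynchronizesTo w q

/-- `s(X)`: the least number of vertices of a synchronizing deterministic presentation of `X`. -/
noncomputable def syncSize (X : Set (ℤ → A)) : ℕ :=
  sInf {k : ℕ | ∃ G : Presentation A (Fin k), G.SyncDet ∧ G.shift = X}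

/-- `X` is `M`-step: it is the set of all bi-infinite sequences avoiding some set of forbidden
words, all of length `M + 1`. -/
def IsStep (X : Set (ℤ → A)) (M : ℕ) : Prop :=
  ∃ F : Set (Fin (M + 1) → A), X = {x | ∀ i : ℤ, (fun j : Fin (M + 1) => x (i + (j : ℕ))) ∉ F}

/-- `X` is a shift of finite type (over a finite alphabet: `M`-step for some `M`). -/
def IsSFT (X : Set (ℤ → A)) : Prop := ∃ M, IsStep X M

/-- The minimum step `m(X)`. -/
noncomputable def minStep (X : Set (ℤ → A)) : ℕ := sInf {M : ℕ | IsStep X M}

/-! ### The construction -/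

/-- the set of ordered pairs `p < q` of states, which stands for the unordered pairs -/
abbrev Prs (n : ℕ) : Type := {p : Fin n × Fin n // p.1 < p.2}

/-- the number of pairs -/
abbrev num (n : ℕ) : ℕ := Fintype.card (Prs n)

noncomputable def enum (n : ℕ) : Fin (num n) ≃ Prs n := (Fintype.equivFin (Prs n)).symm

/-- alphabet: one letter for each ordered pair of states and one letter for each pair `p < q` -/
abbrev Alph (n : ℕ) : Type := (Fin n × Fin n) ⊕ Fin (num n)

inductive E (n : ℕ) : Fin n → Alph n → Fin n → Prop
  | jump (u v : Fin n) : E n u (Sum.inl (u, v)) v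
  | left (i j : Fin (num n)) (h : (j : ℕ) = i + 1) : E n (enum n i).1.1 (Sum.inr i) (enum n j).1.1
  | right (i j : Fin (num n)) (h : (j : ℕ) = i + 1) : E n (enum n i).1.2 (Sum.inr i) (enum n j).1.2

def G (n : ℕ) : Presentation (Alph n) (Fin n) := ⟨E n⟩

lemma E_inl {n : ℕ} {p q u v : Fin n} : E n p (Sum.inl (u, v)) q ↔ p = u ∧ q = v := by
  constructor
  · intro h
    cases h
    exact ⟨rfl, rfl⟩
  · rintro ⟨rfl, rfl⟩
    exact E.jump _ _

lemma E_inr {n : ℕ} {p q : Fin n} {i : Fin (num n)} :
    E n p (Sum.inr i) q ↔ ∃ j : Fin (num n), (j : ℕ) = i + 1 ∧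
      ((p = (enum n i).1.1 ∧ q = (enum n j).1.1) ∨ (p = (enum n i).1.2 ∧ q = (enum n j).1.2)) := by
  constructor
  · intro h
    cases h with
    | left _ j h => exact ⟨j, h, Or.inl ⟨rfl, rfl⟩⟩
    | right _ j h => exact ⟨j, h, Or.inr ⟨rfl, rfl⟩⟩
  · rintro ⟨j, h, (⟨rfl, rfl⟩ | ⟨rfl, rfl⟩)⟩
    · exact E.left _ _ h
    · exact E.right _ _ h

lemma enum_ne {n : ℕ} (i : Fin (num n)) : (enum n i).1.1 ≠ (enum n i).1.2 :=
  ne_of_lt (enum n i).2

lemma G_det (n : ℕ) : (G n).Deterministic := by
  intro p a q q' h h'
  rcases a with ⟨u, v⟩ | i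
  · rw [(E_inl.1 h).2, (E_inl.1 h').2]
  · obtain ⟨j, hj, h⟩ := E_inr.1 h
    obtain ⟨j', hj', h'⟩ := E_inr.1 h'
    have hjj : j = j' := Fin.ext (by omega)
    subst hjj
    have hne := enum_ne i
    rcases h with ⟨h1, h2⟩ | ⟨h1, h2⟩ <;> rcases h' with ⟨h1', h2'⟩ | ⟨h1', h2'⟩
    · rw [h2, h2']
    · exact absurd (h1.symm.trans h1') hne
    · exact absurd (h1'.symm.trans h1) hne
    · rw [h2, h2']

lemma G_syncDet (n : ℕ) : (G n).SyncDet := by
  refine ⟨G_det n, fun q => ⟨[Sum.inl (q, q)], ⟨q, q, q, E.jump q q, rfl⟩, ?_⟩⟩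
  rintro p q' ⟨r, hr, hrq⟩
  have h1 := (E_inl.1 hr).2
  have h2 : r = q' := hrq
  rw [← h2, h1]

/-- the constant sequence on the loop at `v` is in the shift -/
lemma const_mem (n : ℕ) (v : Fin n) : (fun _ => Sum.inl (v, v)) ∈ (G n).shift :=
  ⟨fun _ => v, fun _ => E.jump v v⟩

/-- every presentation of the shift of `G n` has at least `n` vertices -/
lemma le_card (n k : ℕ) (H : Presentation (Alph n) (Fin k)) (hH : H.shift = (G n).shift) :
    n ≤ k := by
  have hv : ∀ v : Fin n, ∃ w : ℤ → Fin k, ∀ i : ℤ, H.edge (w i) (Sum.inl (v, v)) (w (i + 1)) := by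
    intro v
    have := const_mem n v
    rw [← hH] at this
    exact this
  choose w hw using hv
  have hinj : Function.Injective (fun v => w v 0) := by
    intro v v' h
    have h0 : w v 0 = w v' 0 := h
    have hz : (fun i : ℤ => if i < 0 then (Sum.inl (v, v) : Alph n) else Sum.inl (v', v'))
        ∈ H.shift := by
      refine ⟨fun i => if i < 0 then w v i else w v' i, fun i => ?_⟩
      by_cases hi : i < 0
      · by_cases hi' : i + 1 < 0
        · simp only [hi, hi', if_true]
          exact hw v i
        · have : i = -1 := by omega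
          subst this
          simp only [hi, if_true, hi', if_false]
          have h2 := hw v (-1)
          have h3 : ((-1 : ℤ) + 1) = 0 := by norm_num
          rw [h3] at h2 ⊢
          rw [← h0]
          exact h2
      · have hi' : ¬ (i + 1 < 0) := by omega
        simp only [hi, hi', if_false]
        exact hw v' i
    rw [hH] at hz
    obtain ⟨u, hu⟩ := hz
    have h1 := hu (-1)
    have h2 := hu 0
    have h3 : ((-1 : ℤ) + 1) = 0 := by norm_num
    rw [h3] at h1
    have e1 : E n (u (-1)) (Sum.inl (v, v)) (u 0) := by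
      have : E n (u (-1)) (if (-1 : ℤ) < 0 then (Sum.inl (v, v) : Alph n) else Sum.inl (v', v'))
        (u 0) := h1
      simpa using this
    have e2 : E n (u 0) (Sum.inl (v', v')) (u (0 + 1)) := by
      have : E n (u 0) (if (0 : ℤ) < 0 then (Sum.inl (v, v) : Alph n) else Sum.inl (v', v'))
        (u (0 + 1)) := h2
      simpa using this
    rw [← (E_inl.1 e1).2, ← (E_inl.1 e2).1]
  simpa using Fintype.card_le_of_injective _ hinj

lemma syncSize_G (n : ℕ) : syncSize (G n).shift = n := by
  apply le_antisymm
  · exact Nat.sInf_le ⟨G n, G_syncDet n, rfl⟩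
  · have hne : {k : ℕ | ∃ H : Presentation (Alph n) (Fin k),
        H.SyncDet ∧ H.shift = (G n).shift}.Nonempty := ⟨n, G n, G_syncDet n, rfl⟩
    obtain ⟨H, -, hH⟩ := Nat.sInf_mem hne
    exact le_card n _ H hH

/-- two walks over the same window, of length `num n`, end at the same vertex -/
lemma sync_walk (n : ℕ) (x : ℕ → Alph n) (v w : ℕ → Fin n)
    (hv : ∀ i < num n, E n (v i) (x i) (v (i + 1)))
    (hw : ∀ i < num n, E n (w i) (x i) (w (i + 1))) : v (num n) = w (num n) := by
  by_contra hne
  -- once the walks agree they agree forever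
  have hprop : ∀ k, k ≤ num n → v k = w k → v (num n) = w (num n) := by
    intro k hk h
    have : ∀ d, k + d ≤ num n → v (k + d) = w (k + d) := by
      intro d
      induction d with
      | zero => intro _; exact h
      | succ d ih =>
        intro hd
        have h1 := ih (by omega)
        have h2 := hv (k + d) (by omega)
        have h3 := hw (k + d) (by omega)
        rw [← h1] at h3
        exact G_det n _ _ _ _ h2 h3
    have := this (num n - k) (by omega)
    rwa [Nat.add_sub_cancel' hk] at this
  have hdiff : ∀ k, k ≤ num n → v k ≠ w k := fun k hk h => hne (hprop k hk h)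
  -- all letters are pair letters with increasing index
  have hidx : ∀ k, k < num n → ∃ i : Fin (num n), x k = Sum.inr i ∧ k ≤ (i : ℕ) ∧
      (i : ℕ) + 1 < num n ∧
      ∃ j : Fin (num n), (j : ℕ) = i + 1 ∧
        ((v (k + 1) = (enum n j).1.1 ∧ w (k + 1) = (enum n j).1.2) ∨
         (v (k + 1) = (enum n j).1.2 ∧ w (k + 1) = (enum n j).1.1)) := by
    intro k
    induction k with
    | zero =>
      intro hk
      have h1 := hv 0 hk
      have h2 := hw 0 hk
      rcases hx : x 0 with ⟨a, b⟩ | i
      · rw [hx] at h1 h2
        exact absurd ((E_inl.1 h1).1.trans (E_inl.1 h2).1.symm) (hdiff 0 (by omega))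
      · rw [hx] at h1 h2
        obtain ⟨j, hj, h1⟩ := E_inr.1 h1
        obtain ⟨j', hj', h2⟩ := E_inr.1 h2
        have hjj : j = j' := Fin.ext (by omega)
        subst hjj
        refine ⟨i, rfl, by omega, by have := j.2; omega, j, hj, ?_⟩
        rcases h1 with ⟨h1, h1'⟩ | ⟨h1, h1'⟩ <;> rcases h2 with ⟨h2, h2'⟩ | ⟨h2, h2'⟩
        · exact absurd (h1.trans h2.symm) (hdiff 0 (by omega))
        · exact Or.inl ⟨h1', h2'⟩
        · exact Or.inr ⟨h1', h2'⟩
        · exact absurd (h1.trans h2.symm) (hdiff 0 (by omega))
    | succ k ih =>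
      intro hk
      obtain ⟨i, -, hki, -, j, hj, hjv⟩ := ih (by omega)
      have h1 := hv (k + 1) hk
      have h2 := hw (k + 1) hk
      rcases hx : x (k + 1) with ⟨a, b⟩ | i'
      · rw [hx] at h1 h2
        exact absurd ((E_inl.1 h1).1.trans (E_inl.1 h2).1.symm) (hdiff (k + 1) (by omega))
      · rw [hx] at h1 h2
        obtain ⟨j1, hj1, h1⟩ := E_inr.1 h1
        obtain ⟨j2, hj2, h2⟩ := E_inr.1 h2
        have hjj : j1 = j2 := Fin.ext (by omega)
        subst hjj
        have hne' := hdiff (k + 1) (by omega)
        -- the index of the letter is the current pair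
        have hij : i' = j := by
          apply (enum n).injective
          apply Subtype.ext
          have o1 := (enum n i').2
          have o2 := (enum n j).2
          rcases h1 with ⟨h1, -⟩ | ⟨h1, -⟩ <;> rcases h2 with ⟨h2, -⟩ | ⟨h2, -⟩ <;>
            rcases hjv with ⟨h3, h4⟩ | ⟨h3, h4⟩
          · exact absurd (h1.trans h2.symm) hne'
          · exact absurd (h1.trans h2.symm) hne'
          · exact Prod.ext (h1.symm.trans h3) (h2.symm.trans h4)
          · exfalso
            rw [← h1, ← h2, h3, h4] at o1
            exact absurd o1 (not_lt.2 o2.le)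
          · exfalso
            rw [← h1, ← h2, h3, h4] at o1
            exact absurd o1 (not_lt.2 o2.le)
          · exact Prod.ext (h2.symm.trans h4) (h1.symm.trans h3)
          · exact absurd (h1.trans h2.symm) hne'
          · exact absurd (h1.trans h2.symm) hne'
        refine ⟨i', rfl, by rw [hij]; omega, by have := j1.2; omega, j1, hj1, ?_⟩
        rcases h1 with ⟨h1, h1'⟩ | ⟨h1, h1'⟩ <;> rcases h2 with ⟨h2, h2'⟩ | ⟨h2, h2'⟩
        · exact absurd (h1.trans h2.symm) hne'
        · exact Or.inl ⟨h1', h2'⟩
        · exact Or.inr ⟨h1', h2'⟩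
        · exact absurd (h1.trans h2.symm) hne'
  rcases Nat.eq_zero_or_pos (num n) with h0 | hpos
  · -- no pairs: at most one state
    have hn : n ≤ 1 := by
      by_contra hn
      push Not at hn
      have : Nonempty (Prs n) := ⟨⟨(⟨0, by omega⟩, ⟨1, by omega⟩), by simp [Fin.lt_def]⟩⟩
      exact absurd h0 Fintype.card_ne_zero
    apply hne
    apply Fin.ext
    have h1 := (v (num n)).2
    have h2 := (w (num n)).2
    omega
  · obtain ⟨i, -, h1, h2, -⟩ := hidx (num n - 1) (by omega)
    omega

lemma isStep_G (n : ℕ) : IsStep (G n).shift (num n) := by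
  refine ⟨{u | ¬ ∃ v : ℕ → Fin n, ∀ i : Fin (num n + 1), E n (v i) (u i) (v (i + 1))}, ?_⟩
  ext x
  simp only [Set.mem_ofPred_eq, not_not]
  constructor
  · rintro ⟨v, hv⟩ i
    refine ⟨fun k => v (i + k), fun j => ?_⟩
    have h1 : E n (v (i + (j : ℕ))) (x (i + (j : ℕ))) (v (i + (j : ℕ) + 1)) := hv (i + (j : ℕ))
    have h2 : i + ((j : ℕ) : ℤ) + 1 = i + (((j : ℕ) + 1 : ℕ) : ℤ) := by push_cast; ring
    rw [h2] at h1
    exact h1
  · intro h
    choose v hv using h
    -- state after reading the window starting at `i`
    refine ⟨fun i => v (i - num n) (num n), fun i => ?_⟩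
    have h1 := hv (i - num n) (Fin.last _)
    simp only [Fin.val_last, sub_add_cancel] at h1
    have hkey : v (i + 1 - num n) (num n) = v (i - num n) (num n + 1) := by
      have := sync_walk n (fun k => x (i + 1 - num n + (k : ℕ)))
        (fun k => v (i + 1 - num n) k) (fun k => v (i - num n) (k + 1))
        (fun k hk => by
          have := hv (i + 1 - num n) ⟨k, by omega⟩
          simpa using this)
        (fun k hk => by
          have := hv (i - num n) ⟨k + 1, by omega⟩
          have e : i + 1 - (num n : ℤ) + (k : ℕ) = i - num n + ((k + 1 : ℕ) : ℤ) := by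
            push_cast; ring
          rw [e]
          simpa using this)
      exact this
    show E n (v (i - num n) (num n)) (x i) (v (i + 1 - num n) (num n))
    rw [hkey]
    exact h1

lemma le_of_isStep (n M : ℕ) (hM : IsStep (G n).shift M) : num n ≤ M := by
  by_contra hlt
  push Not at hlt
  obtain ⟨F, hF⟩ := hM
  have hpos : 0 < num n := by omega
  let f : ℕ → Prs n := fun k => enum n ⟨min k (num n - 1), by omega⟩
  have hf : ∀ k, (h : k < num n) → f k = enum n ⟨k, h⟩ := by
    intro k h
    simp only [f]
    congr 2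
    omega
  let i0 : Prs n := f 0
  let iL : Prs n := f (num n - 1)
  -- label sequences
  let mid : ℕ → Alph n := fun k => Sum.inr ⟨min k (num n - 1), by omega⟩
  let x : Fin n → Fin n → ℤ → Alph n := fun p q i =>
    if i < 0 then Sum.inl (p, p) else
      if i < (num n : ℤ) - 1 then mid i.toNat else Sum.inl (q, q)
  have hx1 : x i0.1.1 iL.1.1 ∈ (G n).shift := by
    refine ⟨fun i => (f i.toNat).1.1, fun i => ?_⟩
    show E n _ _ _
    by_cases hi : i < 0
    · simp only [x, hi, if_true]
      have h1 : i.toNat = 0 := by omega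
      have h2 : (i + 1).toNat = 0 := by omega
      rw [h1, h2]
      exact E.jump _ _
    · by_cases hi2 : i < (num n : ℤ) - 1
      · simp only [x, hi, if_false, hi2, if_true]
        rw [hf i.toNat (by omega), hf (i + 1).toNat (by omega)]
        have : mid i.toNat = Sum.inr ⟨i.toNat, by omega⟩ := by
          simp only [mid]
          congr 2
          omega
        rw [this]
        exact E.left _ _ (by simp only; omega)
      · simp only [x, hi, if_false, hi2]
        have h1 : f i.toNat = iL := by
          simp only [f, iL]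
          congr 2
          omega
        have h2 : f (i + 1).toNat = iL := by
          simp only [f, iL]
          congr 2
          omega
        rw [h1, h2]
        exact E.jump _ _
  have hx2 : x i0.1.2 iL.1.2 ∈ (G n).shift := by
    refine ⟨fun i => (f i.toNat).1.2, fun i => ?_⟩
    show E n _ _ _
    by_cases hi : i < 0
    · simp only [x, hi, if_true]
      have h1 : i.toNat = 0 := by omega
      have h2 : (i + 1).toNat = 0 := by omega
      rw [h1, h2]
      exact E.jump _ _
    · by_cases hi2 : i < (num n : ℤ) - 1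
      · simp only [x, hi, if_false, hi2, if_true]
        rw [hf i.toNat (by omega), hf (i + 1).toNat (by omega)]
        have : mid i.toNat = Sum.inr ⟨i.toNat, by omega⟩ := by
          simp only [mid]
          congr 2
          omega
        rw [this]
        exact E.right _ _ (by simp only; omega)
      · simp only [x, hi, if_false, hi2]
        have h1 : f i.toNat = iL := by
          simp only [f, iL]
          congr 2
          omega
        have h2 : f (i + 1).toNat = iL := by
          simp only [f, iL]
          congr 2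
          omega
        rw [h1, h2]
        exact E.jump _ _
  -- the glued sequence
  have hz : x i0.1.1 iL.1.2 ∈ (G n).shift := by
    rw [hF]
    intro i
    rw [hF] at hx1 hx2
    by_cases hi : i + (M : ℤ) < (num n : ℤ) - 1
    · have := hx1 i
      convert this using 2
      funext j
      have hj := j.2
      have hj' : ((j : ℕ) : ℤ) ≤ M := by omega
      have h3 : i + ((j : ℕ) : ℤ) < (num n : ℤ) - 1 := by omega
      simp only [x, h3, if_true]
    · have := hx2 i
      convert this using 2
      funext j
      have h3 : ¬ (i + ((j : ℕ) : ℤ) < 0) := by omega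
      simp only [x, h3, if_false]
  obtain ⟨v, hv⟩ := hz
  have hstart : v 0 = i0.1.1 := by
    have h1 := hv (-1)
    have h3 : ((-1 : ℤ) + 1) = 0 := by norm_num
    rw [h3] at h1
    have h2 : x i0.1.1 iL.1.2 (-1) = Sum.inl (i0.1.1, i0.1.1) := by
      simp [x]
    rw [h2] at h1
    exact (E_inl.1 h1).2
  have hmid : ∀ k : ℕ, k + 1 ≤ num n → v (k : ℤ) = (f k).1.1 := by
    intro k
    induction k with
    | zero => intro _; simpa using hstart
    | succ k ih =>
      intro hk
      have h1 := hv (k : ℤ)
      have h2 : x i0.1.1 iL.1.2 (k : ℤ) = Sum.inr ⟨k, by omega⟩ := by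
        have e1 : ¬ ((k : ℤ) < 0) := by omega
        have e2 : (k : ℤ) < (num n : ℤ) - 1 := by omega
        simp only [x, e1, if_false, e2, if_true, mid, Int.toNat_natCast]
        congr 2
        omega
      rw [h2, ih (by omega), hf k (by omega)] at h1
      obtain ⟨j, hj, h1⟩ := E_inr.1 h1
      have hne := enum_ne (n := n) ⟨k, by omega⟩
      rcases h1 with ⟨-, h1⟩ | ⟨h1, -⟩
      · have e : v ((k : ℤ) + 1) = (enum n j).1.1 := h1
        have hj2 : j = ⟨k + 1, by omega⟩ := Fin.ext hj
        rw [hf (k + 1) (by omega), ← hj2]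
        push_cast
        exact e
      · exact absurd h1 hne
  have h1 := hmid (num n - 1) (by omega)
  have h2 := hv ((num n - 1 : ℕ) : ℤ)
  have h3 : x i0.1.1 iL.1.2 ((num n - 1 : ℕ) : ℤ) = Sum.inl (iL.1.2, iL.1.2) := by
    have e1 : ¬ (((num n - 1 : ℕ) : ℤ) < 0) := by omega
    have e2 : ¬ (((num n - 1 : ℕ) : ℤ) < (num n : ℤ) - 1) := by omega
    simp only [x, e1, if_false, e2]
  rw [h3, h1] at h2
  have h4 := (E_inl.1 h2).1
  exact absurd h4 (ne_of_lt (f (num n - 1)).2)

lemma two_mul_num (n : ℕ) : 2 * num n + n = n * n := by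
  classical
  have hcard : num n = ((Finset.univ : Finset (Fin n × Fin n)).filter
      (fun p => p.1 < p.2)).card := by
    rw [num, Fintype.card_subtype]
  have hswap : ((Finset.univ : Finset (Fin n × Fin n)).filter (fun p => p.2 < p.1)).card =
      ((Finset.univ : Finset (Fin n × Fin n)).filter (fun p => p.1 < p.2)).card := by
    apply Finset.card_bij (fun p _ => p.swap)
    · intro p hp
      simpa using hp
    · intro p _ q _ h
      exact Prod.swap_injective h
    · intro p hp
      exact ⟨p.swap, by simpa using hp, by simp⟩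
  have hdiag : ((Finset.univ : Finset (Fin n × Fin n)).filter (fun p => p.1 = p.2)).card = n := by
    have : ((Finset.univ : Finset (Fin n × Fin n)).filter (fun p => p.1 = p.2)) =
        (Finset.univ : Finset (Fin n)).image (fun a => (a, a)) := by
      ext ⟨a, b⟩
      simp
    rw [this, Finset.card_image_of_injective _ (fun a b h => (Prod.mk.inj h).1)]
    simp
  have htot : (Finset.univ : Finset (Fin n × Fin n)).card = n * n := by
    simp [Fintype.card_prod]
  have h1 := Finset.card_filter_add_card_filter_not (s := (Finset.univ : Finset (Fin n × Fin n)))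
    (fun p => p.1 < p.2)
  have h2 : ((Finset.univ : Finset (Fin n × Fin n)).filter (fun p => ¬ p.1 < p.2)).card =
      ((Finset.univ : Finset (Fin n × Fin n)).filter (fun p => p.2 < p.1)).card +
      ((Finset.univ : Finset (Fin n × Fin n)).filter (fun p => p.1 = p.2)).card := by
    rw [← Finset.card_union_of_disjoint]
    · congr 1
      ext ⟨a, b⟩
      simp only [Finset.mem_filter, Finset.mem_univ, true_and, Finset.mem_union, not_lt]
      constructor
      · intro h
        rcases lt_or_eq_of_le h with h | h
        · exact Or.inl h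
        · exact Or.inr h.symm
      · rintro (h | h)
        · exact h.le
        · exact h.symm.le
    · rw [Finset.disjoint_filter]
      rintro ⟨a, b⟩ _ h1 h2
      simp only at h1 h2
      rw [h2] at h1
      exact lt_irrefl _ h1
  rw [htot] at h1
  omega

/-- **The quadratic bound is tight.** There are `c > 0` and shifts of finite type
`X 0, X 1, …` (over finite alphabets) with `s (X n) → ∞` and `m (X n) ≥ c * s (X n) ^ 2`. -/
theorem result :
    ∃ c : ℝ, 0 < c ∧
      ∃ (A : ℕ → Type) (_ : ∀ n, Fintype (A n)) (X : ∀ n, Set (ℤ → A n)),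
        (∀ n, IsSFT (X n)) ∧
        Tendsto (fun n => syncSize (X n)) atTop atTop ∧
        ∀ n, c * (syncSize (X n) : ℝ) ^ 2 ≤ (minStep (X n) : ℝ) := by
  refine ⟨1 / 4, by norm_num, fun n => Alph (n + 2), fun n => inferInstance,
    fun n => (G (n + 2)).shift, fun n => ⟨_, isStep_G (n + 2)⟩, ?_, fun n => ?_⟩
  · simp only [syncSize_G]
    exact tendsto_atTop_mono (fun n => Nat.le_add_right n 2) tendsto_id
  · rw [syncSize_G]
    have h1 : num (n + 2) ≤ minStep (G (n + 2)).shift := by
      have hne : {M : ℕ | IsStep (G (n + 2)).shift M}.Nonempty := ⟨_, isStep_G (n + 2)⟩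
      exact le_of_isStep (n + 2) _ (Nat.sInf_mem hne)
    have h2 := two_mul_num (n + 2)
    have h3 : (num (n + 2) : ℝ) ≤ (minStep (G (n + 2)).shift : ℝ) := by exact_mod_cast h1
    have h4 : 2 * (num (n + 2) : ℝ) + ((n + 2 : ℕ) : ℝ) = ((n + 2 : ℕ) : ℝ) * ((n + 2 : ℕ) : ℝ) := by
      exact_mod_cast h2
    have h5 : (2 : ℝ) ≤ ((n + 2 : ℕ) : ℝ) := by
      push_cast
      have : (0 : ℝ) ≤ (n : ℝ) := Nat.cast_nonneg n
      linarith
    nlinarith [h3, h4, h5]

end Pool.Agent.Results.MP_560fdc_co.QuadraticStep
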